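import Pool.Agent.H.MP_7c40ec_lc.Mach

namespace Pool.Agent.H.MP_7c40ec_lc

open Classical Finset Filter

theorem cnt_approx {α : Type} [Primcodable α] (P : α → ℕ → Prop)
    (hP : REPred fun p : α × ℕ => P p.1 p.2) (T : α → ℕ) (hT : Primrec T) :
    ∃ f : α → ℕ → ℕ, Primrec₂ f ∧ (∀ a t, f a t ≤ #{u ∈ range (T a) | P a u}) ∧
      ∀ a, ∀ᶠ t in atTop, #{u ∈ range (T a) | P a u} ≤ f a t := by
  obtain ⟨N, h1, h2, h3⟩ := re_approx hP
  have e : ∀ a t, ((List.range (T a)).filter fun u => N (a, u) t).length =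
    #{u ∈ range (T a) | N (a, u) t} := fun a t => rfl
  refine ⟨fun a t => ((List.range (T a)).filter fun u => N (a, u) t).length, ?_, fun a t => ?_,
    fun a => ?_⟩
  · have h4 : PrimrecRel fun (u : ℕ) (p : α × ℕ) => N (p.1, u) p.2 :=
      h1.comp ((Primrec.fst.comp Primrec.snd).pair Primrec.fst) (Primrec.snd.comp Primrec.snd)
    exact Primrec.list_length.comp (h4.listFilter.comp
      (Primrec.list_range.comp (hT.comp Primrec.fst)) Primrec.id)
  · beta_reduce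
    rw [e]
    exact card_le_card (monotone_filter_right _ fun u _ => h2 _ _)
  · filter_upwards [(eventually_all_finset {u ∈ range (T a) | P a u}).2 fun u hu =>
      h3 (a, u) (mem_filter.1 hu).2] with t ht
    rw [e]
    exact card_le_card fun u hu => mem_filter.2 ⟨(mem_filter.1 hu).1, ht u hu⟩

theorem re_comp {α β : Type} [Primcodable α] [Primcodable β] {p : β → Prop} (hp : REPred p)
    {f : α → β} (hf : Primrec f) : REPred fun a => p (f a) := Partrec.comp hp hf.to_comp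

def pD (c : ℕ) : ℕ := 4 * c + 8
def pG (c : ℕ) : ℕ := c * pD c
def pL (c : ℕ) : ℕ := 2 ^ ((pG c + 1) * pD c)
def pm (c r : ℕ) : ℕ := r * (pG c + 2) * pD c
def l0 (c r j : ℕ) : ℕ := pm c r + pL c - j
def lv (c r k : ℕ) : ℕ := pm c r + k * pD c + (2 * c + 1)
def X (c r j u : ℕ) : ℕ := Nat.pair c (Nat.pair r (Nat.pair j u))

abbrev A := ℕ × ℕ × ℕ × ℕ

theorem p_pow : Primrec fun n : ℕ => 2 ^ n :=
  (Primrec₂.unpaired'.1 Nat.Primrec.pow).comp (Primrec.const 2) Primrec.id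
theorem p_D : Primrec pD := Primrec.nat_add.comp (Primrec.nat_mul.comp (.const 4) .id) (.const 8)
theorem p_G : Primrec pG := Primrec.nat_mul.comp .id p_D
theorem p_L : Primrec pL := p_pow.comp (Primrec.nat_mul.comp (Primrec.succ.comp p_G) p_D)
theorem p_m : Primrec₂ pm := Primrec.nat_mul.comp (Primrec.nat_mul.comp .snd
  (Primrec.nat_add.comp (p_G.comp .fst) (.const 2))) (p_D.comp .fst)
theorem a_r : Primrec fun a : A => a.2.1 := Primrec.fst.comp .snd
theorem a_j : Primrec fun a : A => a.2.2.1 := Primrec.fst.comp (Primrec.snd.comp .snd)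
theorem a_k : Primrec fun a : A => a.2.2.2 := Primrec.snd.comp (Primrec.snd.comp .snd)
theorem a_m : Primrec fun a : A => pm a.1 a.2.1 := p_m.comp .fst a_r
theorem a_l0 : Primrec fun a : A => l0 a.1 a.2.1 a.2.2.1 :=
  Primrec.nat_sub.comp (Primrec.nat_add.comp a_m (p_L.comp .fst)) a_j
theorem a_lv : Primrec fun a : A => lv a.1 a.2.1 a.2.2.2 :=
  Primrec.nat_add.comp (Primrec.nat_add.comp a_m (Primrec.nat_mul.comp a_k (p_D.comp .fst)))
    (Primrec.nat_double_succ.comp .fst)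
theorem a_X : Primrec fun p : A × ℕ => X p.1.1 p.1.2.1 p.1.2.2.1 p.2 :=
  Primrec₂.natPair.comp (Primrec.fst.comp .fst) (Primrec₂.natPair.comp (a_r.comp .fst)
    (Primrec₂.natPair.comp (a_j.comp .fst) .snd))

theorem X_inj {c r j u c' r' j' u'} :
    X c r j u = X c' r' j' u' ↔ c = c' ∧ r = r' ∧ j = j' ∧ u = u' := by simp [X]

theorem card_batches (c r : ℕ) (s : Finset ℕ) (B : ℕ → Finset ℕ) :
    #(s.biUnion fun j => (B j).image (X c r j)) = ∑ j ∈ s, #(B j) := by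
  rw [card_biUnion]
  · exact sum_congr rfl fun j _ => card_image_of_injective _ fun u v h => (X_inj.1 h).2.2.2
  · intro i _ j _ hij
    refine disjoint_left.2 fun x h1 h2 => ?_
    obtain ⟨u, -, rfl⟩ := mem_image.1 h1
    obtain ⟨v, -, h⟩ := mem_image.1 h2
    exact hij (X_inj.1 h).2.2.1.symm

theorem geo (F : Finset ℕ) : ∑ c ∈ F, (1 / 2 : ℝ) ^ (c + 1) ≤ 1 := by
  have := summable_geometric_two.sum_le_tsum F fun _ _ => by positivity
  rw [tsum_geometric_two] at this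
  simp only [pow_succ, ← sum_mul]
  linarith

theorem big (c : ℕ) : 2 * (pG c + 1) < 2 ^ (2 * c + 5) := by
  have : c + 1 ≤ 2 ^ c := Nat.lt_two_pow_self
  rw [pow_add, mul_comm 2 c, pow_mul, pG, pD]
  nlinarith [Nat.pow_le_pow_left this 2]

section
variable (C K : ℕ → ℕ) (Q : ℕ → ℕ → ℕ → Prop)

def PO (a : A) (u : ℕ) : Prop := K (X a.1 a.2.1 a.2.2.1 u) ≤ l0 a.1 a.2.1 a.2.2.1
def PJ (a : A) (u : ℕ) : Prop := C (X a.1 a.2.1 a.2.2.1 u) ≤ lv a.1 a.2.1 a.2.2.2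
def PG (a : A) (u : ℕ) : Prop := ∃ κ < pD a.1, ∃ v < pD a.1,
  Q (X a.1 a.2.1 a.2.2.1 u) (l0 a.1 a.2.1 a.2.2.1 + 1 + κ) (lv a.1 a.2.1 a.2.2.2 + 1 + v)

noncomputable def cn (P : A → ℕ → Prop) (a : A) : ℕ := #{u ∈ range (2 ^ pm a.1 a.2.1) | P a u}

theorem guess_le {g c : ℕ} (hQ : ∀ n k (F : Finset ℕ), (∀ v ∈ F, Q n k v) → #F ≤ g) (hc : g ≤ c)
    (r j : ℕ) : ∑ k ∈ range (pG c + 1), cn (PG Q) (c, r, j, k) ≤ 2 ^ pm c r * pG c := by
  simp only [cn, card_filter]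
  rw [sum_comm]
  refine (sum_le_card_nsmul _ _ (pG c) fun u _ => ?_).trans (by simp)
  rw [← card_filter]
  have : ∀ k ∈ {k ∈ range (pG c + 1) | PG Q (c, r, j, k) u}, ∃ κ < pD c, ∃ v < pD c,
    Q (X c r j u) (l0 c r j + 1 + κ) (lv c r k + 1 + v) := fun k hk => (mem_filter.1 hk).2
  choose! κ h1 v h2 h3 using this
  rw [card_eq_sum_card_fiberwise (f := κ) (t := range (pD c)) fun k hk => by simpa using h1 k hk]
  refine (sum_le_card_nsmul _ _ g fun i _ => ?_).trans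
    (by rw [card_range, smul_eq_mul, pG, mul_comm]; gcongr)
  rw [← card_image_of_injOn (f := fun k => lv c r k + 1 + v k)]
  · refine hQ (X c r j u) (l0 c r j + 1 + i) _ fun w hw => ?_
    obtain ⟨k, hk, rfl⟩ := mem_image.1 hw
    exact (mem_filter.1 hk).2 ▸ h3 k (mem_filter.1 hk).1
  · intro k hk k' hk' e
    have a1 := h2 k (mem_filter.1 hk).1
    have a2 := h2 k' (mem_filter.1 hk').1
    simp only [lv] at e
    rcases lt_trichotomy k k' with h | h | h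
    · nlinarith [Nat.mul_le_mul_right (pD c) (Nat.succ_le_of_lt h)]
    · exact h
    · nlinarith [Nat.mul_le_mul_right (pD c) (Nat.succ_le_of_lt h)]

theorem jump_le (hC : ∀ m (F : Finset ℕ), (∀ n ∈ F, C n ≤ m) → #F ≤ 2 ^ (m + 1)) (c r k : ℕ)
    (s : Finset ℕ) (h : ∀ j ∈ s, ∃ k' ≤ k, 2 ^ pm c r ≤ 2 ^ (2 * c + 5) * cn (PJ C) (c, r, j, k')) :
    #s < 2 ^ ((k + 1) * pD c) := by
  choose! k' h1 h2 using h
  have h3 := hC (lv c r k) (s.biUnion fun j =>
    {u ∈ range (2 ^ pm c r) | PJ C (c, r, j, k' j) u}.image (X c r j)) fun n hn => by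
      obtain ⟨j, hj, hn⟩ := mem_biUnion.1 hn
      obtain ⟨u, hu, rfl⟩ := mem_image.1 hn
      refine (mem_filter.1 hu).2.trans ?_
      simp only [lv]
      gcongr
      exact h1 j hj
  rw [card_batches] at h3
  have h4 := (card_nsmul_le_sum s _ _ h2).trans_eq (mul_sum _ _ _).symm
  have h5 := h4.trans (Nat.mul_le_mul_left _ h3)
  rw [smul_eq_mul, ← pow_add, show 2 * c + 5 + (lv c r k + 1) = (k * pD c + (4 * c + 7)) + pm c r by
    rw [lv]; ring, pow_add] at h5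
  refine (Nat.le_of_mul_le_mul_right h5 (by positivity)).trans_lt (Nat.pow_lt_pow_right one_lt_two ?_)
  rw [add_mul, pD]
  omega

theorem over_le (hK : ∀ F : Finset ℕ, ∑ n ∈ F, (1 / 2 : ℝ) ^ K n ≤ 1) (c : ℕ) (s : Finset ℕ)
    (j k : ℕ → ℕ) (h1 : ∀ r ∈ s, j r ≤ pL c)
    (h2 : ∀ r ∈ s, 2 ^ pm c r ≤ 2 ^ (2 * c + 5) * cn (PO K) (c, r, j r, k r)) :
    ∑ r ∈ s, 2 ^ j r ≤ 2 ^ (pL c + (2 * c + 5)) := by
  have h3 := hK (s.biUnion fun r =>
    {u ∈ range (2 ^ pm c r) | PO K (c, r, j r, k r) u}.image (X c r (j r)))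
  rw [sum_biUnion] at h3
  · rw [← Nat.cast_le (α := ℝ)]
    push_cast
    refine le_trans ?_ (mul_le_of_le_one_right (by positivity) h3)
    rw [mul_sum]
    refine sum_le_sum fun r hr => ?_
    rw [sum_image fun u _ v _ h => (X_inj.1 h).2.2.2]
    have h4 := card_nsmul_le_sum {u ∈ range (2 ^ pm c r) | PO K (c, r, j r, k r) u}
      (fun u => (1 / 2 : ℝ) ^ K (X c r (j r) u)) ((1 / 2) ^ l0 c r (j r)) fun u hu =>
        pow_le_pow_of_le_one (by norm_num) (by norm_num) (mem_filter.1 hu).2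
    refine le_trans ?_ (mul_le_mul_of_nonneg_left h4 (by positivity))
    have h5 : (2 : ℝ) ^ pm c r ≤ 2 ^ (2 * c + 5) * cn (PO K) (c, r, j r, k r) := by
      exact_mod_cast h2 r hr
    have h6 : (2 : ℝ) ^ j r * 2 ^ l0 c r (j r) = 2 ^ pL c * 2 ^ pm c r := by
      have := h1 r hr
      rw [← pow_add, ← pow_add, l0]
      congr 1
      omega
    rw [nsmul_eq_mul, one_div_pow, ← mul_assoc, mul_one_div, le_div_iff₀ (by positivity), h6,
      pow_add, mul_assoc]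
    exact mul_le_mul_of_nonneg_left h5 (by positivity)
  · intro i _ i' _ hij
    refine disjoint_left.2 fun x h1 h2 => ?_
    obtain ⟨u, -, rfl⟩ := mem_image.1 h1
    obtain ⟨v, -, h⟩ := mem_image.1 h2
    exact hij (X_inj.1 h).2.1.symm

end

theorem game (C K : ℕ → ℕ) (Q : ℕ → ℕ → ℕ → Prop) (g : ℕ)
    (hC1 : ∀ m (F : Finset ℕ), (∀ n ∈ F, C n ≤ m) → #F ≤ 2 ^ (m + 1))
    (hC2 : ∀ R : ℕ → ℕ → Prop, REPred (fun p : ℕ × ℕ => R p.1 p.2) →
      (∀ l (F : Finset ℕ), (∀ n ∈ F, R n l) → #F ≤ 2 ^ l) → ∃ c, ∀ n l, R n l → C n ≤ l + c)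
    (hC3 : REPred fun p : ℕ × ℕ => C p.1 ≤ p.2)
    (hK1 : ∀ F : Finset ℕ, ∑ n ∈ F, (1 / 2 : ℝ) ^ K n ≤ 1)
    (hK2 : ∀ R : ℕ → ℕ → Prop, REPred (fun p : ℕ × ℕ => R p.1 p.2) →
      (∀ F : Finset (ℕ × ℕ), (∀ p ∈ F, R p.1 p.2) → ∑ p ∈ F, (1 / 2 : ℝ) ^ p.2 ≤ 1) →
      ∃ c, ∀ n l, R n l → K n ≤ l + c)
    (hK3 : REPred fun p : ℕ × ℕ => K p.1 ≤ p.2)
    (hQ1 : REPred fun p : ℕ × ℕ × ℕ => Q p.1 p.2.1 p.2.2)
    (hQ2 : ∀ n k (F : Finset ℕ), (∀ v ∈ F, Q n k v) → #F ≤ g) : ∃ n, ¬ Q n (K n) (C n) := by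
  by_contra hq
  push Not at hq
  have rO : REPred fun p : A × ℕ => PO K p.1 p.2 :=
    (re_comp hK3 (a_X.pair (a_l0.comp .fst))).of_eq fun _ => Iff.rfl
  have rJ : REPred fun p : A × ℕ => PJ C p.1 p.2 :=
    (re_comp hC3 (a_X.pair (a_lv.comp .fst))).of_eq fun _ => Iff.rfl
  have rG : REPred fun p : A × ℕ => PG Q p.1 p.2 := by
    obtain ⟨N, h1, h2, h3⟩ := re_approx hQ1
    have w1 : Primrec fun q : (A × ℕ) × ℕ × ℕ × ℕ => q.2.1 := Primrec.fst.comp .snd
    have w2 : Primrec fun q : (A × ℕ) × ℕ × ℕ × ℕ => q.2.2.1 :=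
      Primrec.fst.comp (Primrec.snd.comp .snd)
    have w0 : Primrec fun q : (A × ℕ) × ℕ × ℕ × ℕ => q.1.1 := Primrec.fst.comp .fst
    have w3 := p_D.comp (Primrec.fst.comp w0)
    have w4 := h1.comp ((a_X.comp .fst).pair
      ((Primrec.nat_add.comp (Primrec.succ.comp (a_l0.comp w0)) w1).pair
      (Primrec.nat_add.comp (Primrec.succ.comp (a_lv.comp w0)) w2)))
      (Primrec.snd.comp (Primrec.snd.comp .snd))
    refine (re_ex (R := fun (p : A × ℕ) (w : ℕ × ℕ × ℕ) => w.1 < pD p.1.1 ∧ w.2.1 < pD p.1.1 ∧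
      N (X p.1.1 p.1.2.1 p.1.2.2.1 p.2, l0 p.1.1 p.1.2.1 p.1.2.2.1 + 1 + w.1,
        lv p.1.1 p.1.2.1 p.1.2.2.2 + 1 + w.2.1) w.2.2) (((Primrec.nat_lt.comp w1 w3).and
        ((Primrec.nat_lt.comp w2 w3).and w4)).of_eq fun _ => Iff.rfl)).of_eq fun p => ⟨?_, ?_⟩
    · rintro ⟨w, a1, a2, a3⟩
      exact ⟨_, a1, _, a2, h2 _ _ a3⟩
    · rintro ⟨κ, a1, v, a2, a3⟩
      obtain ⟨t, ht⟩ := (h3 (_, _, _) a3).exists
      exact ⟨(κ, v, t), a1, a2, ht⟩
  obtain ⟨fO, o1, o2, o3⟩ := cnt_approx _ rO _ (p_pow.comp a_m)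
  obtain ⟨fJ, j1, j2, j3⟩ := cnt_approx _ rJ _ (p_pow.comp a_m)
  obtain ⟨fG, g1, g2, g3⟩ := cnt_approx _ rG _ (p_pow.comp a_m)
  let O : ℕ → ℕ × ℕ × ℕ → ℕ → Prop := fun c s t => 2 ^ pm c s.1 ≤ 2 ^ (2 * c + 5) * fO (c, s) t
  let J : ℕ → ℕ × ℕ × ℕ → ℕ → Prop := fun c s t => 2 ^ pm c s.1 ≤ 2 ^ (2 * c + 5) * fJ (c, s) t
  let Gs : ℕ → ℕ × ℕ × ℕ → ℕ → Prop := fun c s t =>
    2 ^ (2 * c + 5) * 2 ^ pm c s.1 ≤ 2 ^ (2 * c + 5) * fG (c, s) t + 2 * 2 ^ pm c s.1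
  obtain ⟨S, hS⟩ : ∃ S : ℕ → ℕ → ℕ × ℕ × ℕ, ∀ c t, S c t = st (O c) (J c) (Gs c) (pG c) t :=
    ⟨_, fun _ _ => rfl⟩
  have pS : Primrec₂ S := by
    have u1 : Primrec fun p : ℕ × ℕ × ℕ × ℕ × ℕ => ((p.1, p.2.2) : A) :=
      Primrec.fst.pair (Primrec.snd.comp .snd)
    have u2 : Primrec fun p : ℕ × ℕ × ℕ × ℕ × ℕ => p.2.1 := Primrec.fst.comp .snd
    have u3 := p_pow.comp (a_m.comp u1)
    have u4 : Primrec fun p : ℕ × ℕ × ℕ × ℕ × ℕ => 2 ^ (2 * p.1 + 5) :=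
      p_pow.comp (Primrec.nat_add.comp (Primrec.nat_double.comp .fst) (.const 5))
    have u5 := Primrec.nat_le.comp u3 (Primrec.nat_mul.comp u4 (o1.comp u1 u2))
    have u6 := Primrec.nat_le.comp u3 (Primrec.nat_mul.comp u4 (j1.comp u1 u2))
    have u7 := Primrec.nat_le.comp (Primrec.nat_mul.comp u4 u3) (Primrec.nat_add.comp
        (Primrec.nat_mul.comp u4 (g1.comp u1 u2)) (Primrec.nat_double.comp u3))
    exact (prim_st (O := O) (J := J) (Gs := Gs) (u5.of_eq fun _ => Iff.rfl)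
      (u6.of_eq fun _ => Iff.rfl) (u7.of_eq fun _ => Iff.rfl) p_G).of_eq fun c t => (hS c t).symm
  have mono : ∀ c {t t'}, t ≤ t' → Le (S c t) (S c t') := fun c t t' h => by
    rw [hS, hS]
    exact st_mono _ _ _ _ h
  have kG : ∀ c t, (S c t).2.2 ≤ pG c := fun c t => hS c t ▸ (st_inv _ _ _ _ t).1
  have sA : ∀ c t j, j < (S c t).2.1 → ∃ k ≤ pG c, 2 ^ pm c (S c t).1 ≤ 2 ^ (2 * c + 5) *
      cn (PJ C) (c, (S c t).1, j, k) ∧ ∀ t'', (S c t'').1 = (S c t).1 → (S c t'').2.1 = j →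
        k ≤ (S c t'').2.2 := by
    simp only [hS]
    intro c t j h
    obtain ⟨k, t', a1, a2, a3⟩ := st_A _ _ _ _ t j h
    exact ⟨k, a1, le_trans a2 (Nat.mul_le_mul_left _ (j2 _ _)), a3⟩
  have bj : ∀ c t, (S c t).2.1 < pL c := fun c t => by
    simpa [pL] using jump_le C hC1 c (S c t).1 (pG c) (range (S c t).2.1) fun j hj =>
      (sA c t j (mem_range.1 hj)).imp fun k h => ⟨h.1, h.2.1⟩
  have sB : ∀ c t, ∃ jj : ℕ → ℕ, (∀ t', (S c t').1 < (S c t).1 → (S c t').2.1 ≤ jj (S c t').1) ∧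
      ∑ r ∈ range (S c t).1, 2 ^ jj r ≤ 2 ^ (pL c + (2 * c + 5)) := by
    intro c t
    have : ∀ r < (S c t).1, ∃ t', (S c t').1 = r ∧ O c (S c t') t' ∧ ∀ t'', (S c t'').1 = r →
        (S c t'').2.1 ≤ (S c t').2.1 := by
      simp only [hS]
      exact st_B _ _ _ _ t
    choose! τ a1 a2 a3 using this
    refine ⟨fun r => (S c (τ r)).2.1, fun t' h => a3 _ h _ rfl, over_le K hK1 c _ _
      (fun r => (S c (τ r)).2.2) (fun r _ => (bj c _).le) fun r hr => ?_⟩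
    have := le_trans (a2 r (mem_range.1 hr)) (Nat.mul_le_mul_left _ (o2 _ _))
    have e := a1 r (mem_range.1 hr)
    generalize S c (τ r) = s at this e
    subst e
    exact this
  have v1 : Primrec fun q : (ℕ × ℕ) × ℕ × ℕ × ℕ => ((q.2.1, S q.2.1 q.2.2.1) : A) :=
    (Primrec.fst.comp .snd).pair (pS.comp (Primrec.fst.comp .snd)
      (Primrec.fst.comp (Primrec.snd.comp .snd)))
  have v2 : Primrec fun q : (ℕ × ℕ) × ℕ × ℕ × ℕ => q.2.2.2 := Primrec.snd.comp (Primrec.snd.comp .snd)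
  have v3 := (Primrec.nat_lt.comp v2 (p_pow.comp (a_m.comp v1))).and
    (Primrec.eq.comp (Primrec.fst.comp .fst) (a_X.comp (v1.pair v2)))
  have v4 := v3.and (Primrec.eq.comp (Primrec.snd.comp .fst) (Primrec.nat_add.comp (a_l0.comp v1)
      (Primrec.nat_add.comp (Primrec.nat_mul.comp (.const 3) (Primrec.fst.comp .snd)) (.const 8))))
  have v5 := v3.and (Primrec.eq.comp (Primrec.nat_add.comp (Primrec.snd.comp .fst)
      (Primrec.fst.comp .snd)) (Primrec.nat_add.comp (a_lv.comp v1)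
      (p_D.comp (Primrec.fst.comp .snd))))
  obtain ⟨c2, hc2⟩ := hK2 (fun n l => ∃ w : ℕ × ℕ × ℕ, (w.2.2 < 2 ^ pm w.1 (S w.1 w.2.1).1 ∧
      n = X w.1 (S w.1 w.2.1).1 (S w.1 w.2.1).2.1 w.2.2) ∧
      l = l0 w.1 (S w.1 w.2.1).1 (S w.1 w.2.1).2.1 + (3 * w.1 + 8))
    (re_ex (v4.of_eq fun _ => Iff.rfl)) fun F hF => by
    choose! w h1 h2 using hF
    rw [← sum_fiberwise_of_maps_to (g := fun p => (w p).1) fun p => mem_image_of_mem _]
    refine le_trans (sum_le_sum fun c _ => ?_) (geo _)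
    obtain ⟨T, hT⟩ : ∃ T, ∀ p ∈ F, (w p).2.1 ≤ T :=
      ⟨F.sup fun p => (w p).2.1, fun p => le_sup (f := fun p => (w p).2.1)⟩
    obtain ⟨jj, b1, b2⟩ := sB c T
    let top := fun r => if r < (S c T).1 then jj r else pL c
    refine le_trans (sum_le_sum_of_subset_of_nonneg (t := ((range ((S c T).1 + 1)).sigma fun r =>
      (range (top r + 1)).filter (· ≤ pL c) ×ˢ range (2 ^ pm c r)).image fun z =>
        (X c z.1 z.2.1 z.2.2, l0 c z.1 z.2.1 + (3 * c + 8))) (fun p hp => ?_)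
          fun _ _ _ => by positivity) (le_trans (sum_image_le_of_nonneg fun _ _ => by positivity) ?_)
    · have e := (mem_filter.1 hp).2
      replace hp := (mem_filter.1 hp).1
      subst e
      refine mem_image.2 ⟨⟨(S (w p).1 (w p).2.1).1, (S (w p).1 (w p).2.1).2.1, (w p).2.2⟩, ?_,
        Prod.ext (h1 p hp).2.symm (h2 p hp).symm⟩
      have := mono (w p).1 (hT p hp)
      have := b1 (w p).2.1
      have := bj (w p).1 (w p).2.1
      simp only [mem_sigma, mem_range, mem_product, mem_filter, (h1 p hp).1, top, and_true, Le] at *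
      split_ifs <;> omega
    · have b3 : ∀ r, ∑ z ∈ (range (top r + 1)).filter (· ≤ pL c) ×ˢ range (2 ^ pm c r),
          (1 / 2 : ℝ) ^ (l0 c r z.1 + (3 * c + 8)) ≤ 2 ^ top r * (2 / 2 ^ (pL c + (3 * c + 8))) := by
        intro r
        rw [sum_product]
        calc _ = ∑ j ∈ (range (top r + 1)).filter (· ≤ pL c),
              (2 : ℝ) ^ j * (1 / 2 ^ (pL c + (3 * c + 8))) := by
              refine sum_congr rfl fun j hj => ?_
              have := (mem_filter.1 hj).2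
              simp only [sum_const, card_range, nsmul_eq_mul, one_div_pow, mul_one_div]
              push_cast
              rw [div_eq_div_iff (by positivity) (by positivity), ← pow_add, ← pow_add, l0]
              congr 1
              omega
          _ ≤ ∑ j ∈ range (top r + 1), (2 : ℝ) ^ j * (1 / 2 ^ (pL c + (3 * c + 8))) :=
              sum_le_sum_of_subset_of_nonneg (filter_subset _ _) fun _ _ _ => by positivity
          _ ≤ _ := by
              rw [← sum_mul, geom_sum_eq (by norm_num), pow_succ, mul_one_div, mul_div_assoc']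
              gcongr
              linarith
      rw [sum_sigma]
      refine (sum_le_sum fun r _ => b3 r).trans ?_
      rw [← sum_mul, sum_range_succ, sum_congr rfl (g := fun r => (2 : ℝ) ^ jj r) fun r hr => by
        simp [top, mem_range.1 hr]]
      have b4 : ∑ r ∈ range (S c T).1, (2 : ℝ) ^ jj r ≤ 2 ^ (pL c + (2 * c + 5)) := by
        exact_mod_cast b2
      have b5 : (2 : ℝ) ^ top (S c T).1 ≤ 2 ^ (pL c + (2 * c + 5)) :=
        pow_le_pow_right₀ one_le_two (by simp [top])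
      refine (mul_le_mul_of_nonneg_right (add_le_add b4 b5) (by positivity)).trans (le_of_eq ?_)
      rw [one_div_pow]
      field_simp
      ring
  obtain ⟨c1, hc1⟩ := hC2 (fun n l => ∃ w : ℕ × ℕ × ℕ, (w.2.2 < 2 ^ pm w.1 (S w.1 w.2.1).1 ∧
      n = X w.1 (S w.1 w.2.1).1 (S w.1 w.2.1).2.1 w.2.2) ∧
      l + w.1 = lv w.1 (S w.1 w.2.1).1 (S w.1 w.2.1).2.2 + pD w.1)
    (re_ex (v5.of_eq fun _ => Iff.rfl)) fun l F hF => by
    choose! w h1 h2 using hF
    rw [card_eq_sum_card_fiberwise (f := fun p => (w p).1) fun p => mem_image_of_mem _,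
      ← Nat.cast_le (α := ℝ)]
    push_cast
    refine le_trans (sum_le_sum fun c hc => ?_) ((mul_sum _ _ _).symm.trans_le
      (mul_le_of_le_one_right (by positivity) (geo _)))
    obtain ⟨n0, n1, n2⟩ := exists_max_image {p ∈ F | (w p).1 = c} (fun p => (S c (w p).2.1).2.1)
      (by simpa [filter_nonempty_iff] using hc)
    obtain ⟨n1, n3⟩ := mem_filter.1 n1
    obtain ⟨⟨r, j, k⟩, e⟩ : ∃ s, S c (w n0).2.1 = s := ⟨_, rfl⟩
    have b0 := h2 n0 n1
    have b6 := kG c (w n0).2.1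
    have b1 := sA c (w n0).2.1
    rw [n3] at b0
    simp only [e] at b0 b1 b6 n2
    have b2 := jump_le C hC1 c r k {i ∈ range j | ∃ t, S c t = (r, i, k)} fun i hi => by
      obtain ⟨hi, t, ht⟩ := mem_filter.1 hi
      obtain ⟨k', -, a2, a3⟩ := b1 i (mem_range.1 hi)
      exact ⟨k', by simpa [ht] using a3 t, a2⟩
    have b3 : {p ∈ F | (w p).1 = c} ⊆ (insert j {i ∈ range j | ∃ t, S c t = (r, i, k)}).biUnion
        fun i => (range (2 ^ pm c r)).image (X c r i) := by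
      intro p hp
      have a0 := n2 p hp
      obtain ⟨hp, a1⟩ := mem_filter.1 hp
      have a2 := h1 p hp
      have a3 := h2 p hp
      have a4 := kG c (w p).2.1
      rw [a1] at a2 a3
      obtain ⟨⟨r', j', k'⟩, e'⟩ : ∃ s, S c (w p).2.1 = s := ⟨_, rfl⟩
      simp only [e'] at a0 a2 a3 a4
      have a5 : r' * (pG c + 2) + k' = r * (pG c + 2) + k := by
        refine Nat.eq_of_mul_eq_mul_right (show 0 < pD c by simp [pD]) ?_
        simp only [lv, pm] at a3 b0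
        rw [add_mul, add_mul]
        omega
      obtain rfl : r' = r := by
        rcases lt_trichotomy r' r with h | h | h
        · nlinarith [Nat.mul_le_mul_right (pG c + 2) (Nat.succ_le_of_lt h)]
        · exact h
        · nlinarith [Nat.mul_le_mul_right (pG c + 2) (Nat.succ_le_of_lt h)]
      obtain rfl : k' = k := by omega
      refine mem_biUnion.2 ⟨j', ?_, mem_image.2 ⟨_, mem_range.2 a2.1, a2.2.symm⟩⟩
      rcases a0.eq_or_lt with h | h
      · simp [h]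
      · exact mem_insert_of_mem (mem_filter.2 ⟨mem_range.2 h, _, e'⟩)
    have b4 := card_le_card b3
    rw [card_batches, sum_const, card_range, smul_eq_mul] at b4
    have b5 := b4.trans (Nat.mul_le_mul_right _ ((card_insert_le _ _).trans b2))
    rw [← pow_add] at b5
    rw [one_div_pow, mul_one_div, le_div_iff₀ (by positivity)]
    norm_cast
    refine (Nat.mul_le_mul_right _ b5).trans (le_of_eq ?_)
    rw [← pow_add]
    congr 1
    rw [lv] at b0
    rw [add_mul]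
    omega
  obtain ⟨c, hc⟩ : ∃ c, c = c1 + c2 + g := ⟨_, rfl⟩
  obtain ⟨T, hT⟩ := st_final (O c) (J c) (Gs c) (pG c) (2 ^ (pL c + (2 * c + 5))) fun t => by
    obtain ⟨jj, -, b2⟩ := sB c t
    rw [← hS]
    refine ⟨le_trans ?_ b2, (bj c t).le.trans (le_trans Nat.lt_two_pow_self.le
      (Nat.pow_le_pow_right two_pos (Nat.le_add_right _ _)))⟩
    simpa using card_nsmul_le_sum (range (S c t).1) (fun r => 2 ^ jj r) 1 fun _ _ => Nat.one_le_two_pow
  have inv := (st_inv (O c) (J c) (Gs c) (pG c) T).2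
  rw [← hS] at hT inv
  have k1 := fun u h => hc1 (X c (S c T).1 (S c T).2.1 u) (lv c (S c T).1 (S c T).2.2 + pD c - c)
    ⟨(c, T, u), ⟨h, rfl⟩, by simp only [pD]; omega⟩
  have k2 := fun u h => hc2 (X c (S c T).1 (S c T).2.1 u) _ ⟨(c, T, u), ⟨h, rfl⟩, rfl⟩
  obtain ⟨⟨r, j, k⟩, e⟩ : ∃ s, S c T = s := ⟨_, rfl⟩
  simp only [e] at hT inv k1 k2
  obtain ⟨t, ⟨⟨t1, t2⟩, t3⟩, t4⟩ := ((((o3 (c, r, j, k)).and (j3 (c, r, j, k))).and
    (g3 (c, r, j, k))).and (eventually_ge_atTop T)).exists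
  obtain ⟨n1, n2, n3⟩ := hT t t4
  have cov : 2 ^ pm c r ≤ cn (PO K) (c, r, j, k) + cn (PJ C) (c, r, j, k) + cn (PG Q) (c, r, j, k) := by
    unfold cn
    refine le_trans (card_range _).ge (le_trans (card_le_card fun u hu => ?_)
      ((card_union_le _ _).trans (add_le_add (card_union_le _ _) le_rfl)))
    simp only [mem_union, mem_filter, hu, true_and, PO, PJ, PG]
    have a1 := k1 u (mem_range.1 hu)
    have a2 := k2 u (mem_range.1 hu)
    rw [or_iff_not_imp_left, not_or]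
    rintro ⟨a3, a4⟩
    refine ⟨K (X c r j u) - (l0 c r j + 1), by rw [pD]; omega, C (X c r j u) - (lv c r k + 1),
      by rw [pD] at *; omega, ?_⟩
    rw [Nat.add_sub_cancel' (by omega), Nat.add_sub_cancel' (by omega)]
    exact hq _
  have gs : Gs c (r, j, k) t := by
    simp only [O, J, Gs, not_le, cn] at *
    nlinarith [Nat.mul_le_mul_left (2 ^ (2 * c + 5)) cov, Nat.mul_le_mul_left (2 ^ (2 * c + 5)) t1,
      Nat.mul_le_mul_left (2 ^ (2 * c + 5)) t2, Nat.mul_le_mul_left (2 ^ (2 * c + 5)) t3]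
  obtain rfl := n3 gs
  have all : ∀ k ∈ range (pG c + 1), 2 ^ (2 * c + 5) * 2 ^ pm c r ≤
      2 ^ (2 * c + 5) * cn (PG Q) (c, r, j, k) + 2 * 2 ^ pm c r := fun k hk => by
    obtain ⟨t', ht'⟩ : ∃ t', Gs c (r, j, k) t' := by
      rcases k.eq_zero_or_pos with rfl | h
      exacts [⟨t, gs⟩, inv k h (Nat.lt_succ_iff.1 (mem_range.1 hk))]
    exact le_trans ht' (add_le_add (Nat.mul_le_mul_left _ (g2 _ _)) le_rfl)
  have f1 := sum_le_sum all
  rw [sum_add_distrib, ← mul_sum (range _) (fun k => cn (PG Q) (c, r, j, k)), sum_const, sum_const,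
    card_range, smul_eq_mul, smul_eq_mul] at f1
  have f2 := Nat.mul_le_mul_left (2 ^ (2 * c + 5)) (guess_le Q hQ2 (show g ≤ c by omega) r j)
  have f3 := Nat.mul_lt_mul_of_pos_right (big c) (show 0 < 2 ^ pm c r by positivity)
  nlinarith

end Pool.Agent.H.MP_7c40ec_lc
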