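import Pool.Agent.H.MP_7c40ec_lc.Mach

namespace Pool.Agent.H.MP_7c40ec_lc

open Classical Finset Filter

def val (p : List Bool) : ℕ := p.foldl (fun a b => 2 * a + b.toNat) 0

theorem foldl_val (q : List Bool) (a : ℕ) :
    q.foldl (fun a b => 2 * a + b.toNat) a = a * 2 ^ q.length + val q := by
  induction q generalizing a with
  | nil => simp [val]
  | cons b q ih => rw [val, List.foldl_cons, List.foldl_cons, ih, ih, List.length_cons]; ring

theorem val_append (p q : List Bool) : val (p ++ q) = val p * 2 ^ q.length + val q := by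
  rw [val, List.foldl_append, foldl_val]
  rfl

theorem val_lt (p : List Bool) : val p < 2 ^ p.length := by
  induction p using List.reverseRecOn with
  | nil => simp [val]
  | append_singleton p b ih =>
    rw [val_append, List.length_append, pow_add]
    cases b <;> simp [val] at ih ⊢ <;> omega

theorem val_surj (l : ℕ) : ∀ v < 2 ^ l, ∃ p : List Bool, p.length = l ∧ val p = v := by
  induction l with
  | zero => exact fun v hv => ⟨[], rfl, by simp [val] at hv ⊢; omega⟩
  | succ l ih =>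
    intro v hv
    obtain ⟨p, h1, h2⟩ := ih (v / 2) (by omega)
    refine ⟨p ++ [decide (v % 2 = 1)], by simp [h1], ?_⟩
    rw [val_append, h2]
    by_cases c : v % 2 = 1 <;> simp [val, c] <;> omega

theorem prim_val : Primrec val :=
  Primrec.list_foldl (h := fun (_ : List Bool) (p : ℕ × Bool) => 2 * p.1 + p.2.toNat) .id (.const 0)
    (Primrec.nat_add.comp (Primrec.nat_double.comp (Primrec.fst.comp .snd))
      ((Primrec.dom_bool Bool.toNat).comp (Primrec.snd.comp .snd)))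

theorem val_cmp {p q : List Bool} (h : p <+: q ∨ q <+: p) :
    (val q : ℝ) / 2 ^ q.length < (val p + 1) / 2 ^ p.length := by
  rw [div_lt_div_iff₀ (by positivity) (by positivity)]
  norm_cast
  rcases h with ⟨r, rfl⟩ | ⟨r, rfl⟩
  · rw [val_append, List.length_append, pow_add]
    nlinarith [Nat.mul_lt_mul_of_pos_right (val_lt r) (Nat.two_pow_pos p.length)]
  · rw [val_append, List.length_append, pow_add]
    nlinarith [Nat.two_pow_pos q.length, Nat.zero_le (val r * 2 ^ q.length)]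

def B (k : ℕ) : Finset (List Bool) := (univ : Finset (Fin k → Bool)).image List.ofFn

theorem mem_B {k : ℕ} {p : List Bool} : p ∈ B k ↔ p.length = k := by
  simp only [B, mem_image, mem_univ, true_and]
  exact ⟨fun ⟨f, h⟩ => h ▸ List.length_ofFn, fun h => by subst h; exact ⟨p.get, List.ofFn_get p⟩⟩

theorem card_B (k : ℕ) : #(B k) = 2 ^ k := by
  rw [B, card_image_of_injective _ List.ofFn_injective]
  simp

theorem card_short (m : ℕ) (F : Finset (List Bool)) (h : ∀ p ∈ F, p.length ≤ m) :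
    #F ≤ 2 ^ (m + 1) := by
  refine (card_le_card (t := (range (m + 1)).biUnion B) fun p hp => ?_).trans (card_biUnion_le.trans ?_)
  · exact mem_biUnion.2 ⟨_, mem_range.2 (Nat.lt_succ_of_le (h p hp)), mem_B.2 rfl⟩
  · simp only [card_B]
    exact (Nat.geomSum_lt le_rfl fun k hk => mem_range.1 hk).le

theorem kraft (F : Finset (List Bool)) (h : ∀ p ∈ F, ∀ q ∈ F, p <+: q → p = q) :
    ∑ p ∈ F, (1 / 2 : ℝ) ^ p.length ≤ 1 := by
  obtain ⟨M, hM⟩ : ∃ M, ∀ p ∈ F, p.length ≤ M := ⟨F.sup List.length, fun p => le_sup⟩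
  have h1 : #(F.biUnion fun p => (B (M - p.length)).image (p ++ ·)) ≤ 2 ^ M := by
    rw [← card_B]
    refine card_le_card fun x hx => ?_
    obtain ⟨p, hp, hx⟩ := mem_biUnion.1 hx
    obtain ⟨r, hr, rfl⟩ := mem_image.1 hx
    rw [mem_B, List.length_append, mem_B.1 hr, Nat.add_sub_cancel' (hM p hp)]
  rw [card_biUnion] at h1
  · have h2 : ∑ p ∈ F, (2 : ℝ) ^ (M - p.length) ≤ 2 ^ M := by
      simp only [card_image_of_injective _ (List.append_right_injective _), card_B] at h1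
      exact_mod_cast h1
    refine le_of_mul_le_mul_left ?_ (show (0 : ℝ) < 2 ^ M by positivity)
    rw [mul_sum, mul_one]
    refine (sum_congr rfl fun p hp => ?_).trans_le h2
    rw [pow_sub₀ _ two_ne_zero (hM p hp), one_div, inv_pow]
  · intro p hp q hq hpq
    refine disjoint_left.2 fun x h1 h2 => ?_
    obtain ⟨r, -, rfl⟩ := mem_image.1 h1
    obtain ⟨r', -, e⟩ := mem_image.1 h2
    rcases List.prefix_or_prefix_of_prefix (List.prefix_append p r) ⟨r', e⟩ with c | c
    exacts [hpq (h p hp q hq c), hpq (h q hq p hp c).symm]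

section
variable {α β : Type} [Primcodable α] [Primcodable β] [Inhabited β]
  (N : α × β → ℕ → Prop) (r : β → β → Prop)

def el (β : Type) [Primcodable β] [Inhabited β] (t : ℕ) : β :=
  (Encodable.decode t.unpair.1).getD default

noncomputable def en (a : α) (t : ℕ) : List β := Nat.rec [] (fun t L =>
  if N (a, el β t) t ∧ ∀ y ∈ L, r y (el β t) then L ++ [el β t] else L) t

omit [Primcodable α] in
theorem en_succ (a : α) (t : ℕ) : en N r a (t + 1) = if N (a, el β t) t ∧
    ∀ y ∈ en N r a t, r y (el β t) then en N r a t ++ [el β t] else en N r a t := rfl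

omit [Primcodable α] in
theorem en_mono (a : α) {t t' : ℕ} (h : t ≤ t') : en N r a t <+: en N r a t' := by
  induction h with
  | refl => exact List.prefix_rfl
  | step _ ih =>
    rw [en_succ]
    split_ifs
    exacts [ih.trans (List.prefix_append _ _), ih]

omit [Primcodable α] in
theorem en_inv (a : α) (t : ℕ) : (en N r a t).Pairwise r ∧ ∀ z ∈ en N r a t, ∃ t, N (a, z) t := by
  induction t with
  | zero => exact ⟨List.Pairwise.nil, by simp [en]⟩
  | succ t ih =>
    rw [en_succ]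
    split_ifs with c
    · refine ⟨List.pairwise_append.2 ⟨ih.1, by simp, by simpa using c.2⟩, fun z hz => ?_⟩
      rcases List.mem_append.1 hz with h | h
      exacts [ih.2 z h, ⟨t, List.mem_singleton.1 h ▸ c.1⟩]
    · exact ih

omit [Primcodable α] in
theorem en_all (a : α) (z : β) (h : ∀ᶠ t in atTop, N (a, z) t) :
    ∃ t, z ∈ en N r a t ∨ ∃ y ∈ en N r a t, ¬ r y z := by
  obtain ⟨T, hT⟩ := eventually_atTop.1 h
  have e : el β (Nat.pair (Encodable.encode z) T) = z := by simp [el]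
  by_cases c : ∀ y ∈ en N r a (Nat.pair (Encodable.encode z) T), r y z
  · refine ⟨Nat.pair (Encodable.encode z) T + 1, Or.inl ?_⟩
    rw [en_succ, e, if_pos ⟨hT _ (Nat.right_le_pair _ _), c⟩]
    simp
  · push Not at c
    exact ⟨_, Or.inr c⟩

theorem prim_en (hN : PrimrecRel N) (hr : PrimrecRel r) : Primrec₂ (en N r) := by
  have e1 : Primrec fun p : α × ℕ × List β => el β p.2.1 :=
    Primrec.option_getD_default.comp (Primrec.decode.comp
      (Primrec.fst.comp (Primrec.unpair.comp (Primrec.fst.comp .snd))))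
  have e2 : Primrec fun p : α × ℕ × List β => p.2.2 := Primrec.snd.comp .snd
  have e3 := (hN.comp (Primrec.fst.pair e1) (Primrec.fst.comp .snd)).and
    (hr.forall_mem_list.comp e2 e1)
  have e4 : Primrec₂ fun (a : α) (p : ℕ × List β) => if N (a, el β p.1) p.1 ∧
      ∀ y ∈ p.2, r y (el β p.1) then p.2 ++ [el β p.1] else p.2 :=
    (Primrec.ite e3 (Primrec.list_concat.comp e2 e1) e2).of_eq fun _ => rfl
  exact Primrec.nat_rec (.const []) e4

omit [Primcodable α] in
theorem en_get (a : α) {t t' i : ℕ} {z : β} (h : t ≤ t') (hz : (en N r a t)[i]? = some z) :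
    (en N r a t')[i]? = some z ∧ (en N r a t').take i = (en N r a t).take i := by
  obtain ⟨s, hs⟩ := en_mono N r a h
  have := (List.getElem?_eq_some_iff.1 hz).1
  rw [← hs, List.getElem?_append_left this, List.take_append_of_le_length this.le]
  exact ⟨hz, rfl⟩

end

theorem prim_ne {β : Type} [Primcodable β] : PrimrecRel fun a b : β => a ≠ b := Primrec.eq.not

theorem plain_code (R : ℕ → ℕ → Prop) (hR : REPred fun p : ℕ × ℕ => R p.1 p.2)
    (h : ∀ l (F : Finset ℕ), (∀ n ∈ F, R n l) → #F ≤ 2 ^ l) :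
    ∃ M : List Bool →. ℕ, Partrec M ∧ ∀ n l, R n l → ∃ p, p.length = l ∧ n ∈ M p := by
  obtain ⟨N, h1, h2, h3⟩ := re_approx hR
  let N' : ℕ × ℕ → ℕ → Prop := fun p t => N (p.2, p.1) t
  have h4 : PrimrecRel N' := h1.comp ((Primrec.snd.comp .fst).pair (Primrec.fst.comp .fst)) .snd
  have h5 := Primrec.eq.comp (Primrec.list_getElem?.comp ((prim_en N' _ h4 prim_ne).comp
    (Primrec.list_length.comp (Primrec.fst (α := List Bool) (β := ℕ × ℕ))) (Primrec.snd.comp .snd))
    (prim_val.comp .fst)) (Primrec.option_some.comp (Primrec.fst.comp .snd))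
  obtain ⟨M, m1, m2⟩ := mach (R := fun (p : List Bool) (n t : ℕ) =>
    (en N' (· ≠ ·) p.length t)[val p]? = some n) (h5.of_eq fun _ => Iff.rfl)
    fun p n n' t t' a b => Option.some.inj ((en_get N' _ _ (le_max_left t t') a).1.symm.trans
      (en_get N' _ _ (le_max_right t t') b).1)
  refine ⟨M, m1, fun n l hn => ?_⟩
  obtain ⟨t, ht⟩ : ∃ t, n ∈ en N' (· ≠ ·) l t := by
    obtain ⟨t, ht | ⟨y, h1, h2⟩⟩ := en_all N' (· ≠ ·) l n (h3 (n, l) hn)
    exacts [⟨t, ht⟩, ⟨t, not_not.1 h2 ▸ h1⟩]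
  obtain ⟨i, hi⟩ := List.getElem?_of_mem ht
  obtain ⟨a1, a2⟩ := en_inv N' (· ≠ ·) l t
  have := h l (en N' (· ≠ ·) l t).toFinset fun m hm =>
    (a2 m (List.mem_toFinset.1 hm)).elim fun t ht => h2 _ _ ht
  rw [List.toFinset_card_of_nodup a1] at this
  obtain ⟨p, rfl, rfl⟩ := val_surj l i ((List.getElem?_eq_some_iff.1 hi).1.trans_le this)
  exact ⟨p, rfl, (m2 _ _).2 ⟨t, hi⟩⟩

def dd (P : List (ℕ × ℕ)) : ℕ := P.foldr (fun y s => y.2 + s) 0
def nm (D : ℕ) (P : List (ℕ × ℕ)) : ℕ := P.foldr (fun y s => 2 ^ (D - y.2) + s) 0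
noncomputable def sw (P : List (ℕ × ℕ)) : ℝ := (P.map fun y => (1 / 2 : ℝ) ^ y.2).sum

theorem nm_eq (P : List (ℕ × ℕ)) (D : ℕ) (h : dd P ≤ D) : (nm D P : ℝ) = sw P * 2 ^ D := by
  induction P with
  | nil => simp [nm, sw]
  | cons y P ih =>
    simp only [dd, nm, sw, List.foldr_cons, List.map_cons, List.sum_cons] at *
    push_cast
    rw [ih (by omega), pow_sub₀ _ two_ne_zero (by omega), one_div, inv_pow]
    ring

theorem sw_take (P : List (ℕ × ℕ)) {i j : ℕ} {y : ℕ × ℕ} (h : P[i]? = some y) (hij : i < j) :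
    sw (P.take i) + (1 / 2) ^ y.2 ≤ sw (P.take j) := by
  obtain ⟨s, hs⟩ := List.take_prefix_take_left (l := P) (Nat.succ_le_of_lt hij)
  rw [← hs, List.take_add_one, h]
  simp only [sw, List.map_append, List.sum_append, Option.toList_some, List.map_cons, List.map_nil,
    List.sum_cons, List.sum_nil, add_zero, le_add_iff_nonneg_right]
  exact List.sum_nonneg (by simp only [List.mem_map]; rintro _ ⟨y, -, rfl⟩; positivity)

theorem kc (R : ℕ → ℕ → Prop) (hR : REPred fun p : ℕ × ℕ => R p.1 p.2)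
    (h : ∀ F : Finset (ℕ × ℕ), (∀ p ∈ F, R p.1 p.2) → ∑ p ∈ F, (1 / 2 : ℝ) ^ p.2 ≤ 1) :
    ∃ M : List Bool →. ℕ, Partrec M ∧ (∀ p q, (M p).Dom → (M q).Dom → p <+: q → p = q) ∧
      ∀ n l, R n l → ∃ p, p.length = l + 1 ∧ n ∈ M p := by
  obtain ⟨N, h1, h2, h3⟩ := re_approx hR
  let N' : Unit × ℕ × ℕ → ℕ → Prop := fun p t => N p.2 t
  have h4 : PrimrecRel N' := h1.comp (Primrec.snd.comp .fst) .snd
  obtain ⟨L, hL⟩ : ∃ L : ℕ → List (ℕ × ℕ), ∀ t, L t = en N' (· ≠ ·) () t := ⟨_, fun _ => rfl⟩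
  have pL : Primrec L := ((prim_en N' _ h4 prim_ne).comp (.const ()) .id).of_eq fun t => (hL t).symm
  have pw : Primrec fun n : ℕ => 2 ^ n :=
    (Primrec₂.unpaired'.1 Nat.Primrec.pow).comp (Primrec.const 2) Primrec.id
  have pd : Primrec dd := Primrec.list_foldr (h := fun (_ : List (ℕ × ℕ)) (y : (ℕ × ℕ) × ℕ) =>
    y.1.2 + y.2) .id (.const 0) (Primrec.nat_add.comp (Primrec.snd.comp (Primrec.fst.comp .snd))
      (Primrec.snd.comp .snd))
  have pn : Primrec fun P => nm (dd P) P := Primrec.list_foldr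
    (h := fun (P : List (ℕ × ℕ)) (y : (ℕ × ℕ) × ℕ) => 2 ^ (dd P - y.1.2) + y.2) .id (.const 0)
    (Primrec.nat_add.comp (pw.comp (Primrec.nat_sub.comp (pd.comp .fst)
      (Primrec.snd.comp (Primrec.fst.comp .snd)))) (Primrec.snd.comp .snd))
  let Rl : List Bool → ℕ → ℕ × ℕ × ℕ → Prop := fun p n w => (L w.1)[w.2.1]? = some (n, w.2.2) ∧
    p.length = w.2.2 + 1 ∧ sw ((L w.1).take w.2.1) * 2 ^ p.length < val p ∧
      val p ≤ sw ((L w.1).take w.2.1) * 2 ^ p.length + 1
  have pR : PrimrecPred fun x : List Bool × ℕ × ℕ × ℕ × ℕ => Rl x.1 x.2.1 x.2.2 := by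
    have w0 : Primrec fun x : List Bool × ℕ × ℕ × ℕ × ℕ => x.2.2 := Primrec.snd.comp .snd
    have w1 := pL.comp (Primrec.fst.comp w0)
    have w2 := Primrec.fst.comp (Primrec.snd.comp w0)
    have w3 := Primrec.snd.comp (Primrec.snd.comp w0)
    have w4 := Primrec.list_take.comp w2 w1
    have w5 := Primrec.list_length.comp (Primrec.fst (α := List Bool) (β := ℕ × ℕ × ℕ × ℕ))
    have w6 := Primrec.nat_mul.comp (pn.comp w4) (pw.comp w5)
    have w7 := pw.comp (pd.comp w4)
    have w8 := Primrec.nat_mul.comp (prim_val.comp .fst) w7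
    refine ((Primrec.eq.comp (Primrec.list_getElem?.comp w1 w2) (Primrec.option_some.comp
      ((Primrec.fst.comp .snd).pair w3))).and ((Primrec.eq.comp w5 (Primrec.succ.comp w3)).and
      ((Primrec.nat_lt.comp w6 w8).and (Primrec.nat_le.comp w8
        (Primrec.nat_add.comp w6 w7))))).of_eq fun x => ?_
    refine and_congr Iff.rfl (and_congr Iff.rfl ?_)
    rw [← Nat.cast_lt (α := ℝ), ← Nat.cast_le (α := ℝ)]
    push_cast
    rw [nm_eq _ _ le_rfl, mul_right_comm, mul_lt_mul_iff_left₀ (by positivity), ← add_one_mul,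
      mul_le_mul_iff_left₀ (by positivity)]
  have key : ∀ p n w q n' w', Rl p n w → Rl q n' w' → (p <+: q ∨ q <+: p) → ¬ w.2.1 < w'.2.1 := by
    rintro p n ⟨t, i, l⟩ q n' ⟨t', i', l'⟩ ⟨a1, a2, -, a3⟩ ⟨b1, -, b2, -⟩ c hi
    simp only [hL] at *
    have c1 := en_get N' _ _ (le_max_left t t') a1
    have c2 := en_get N' _ _ (le_max_right t t') b1
    have c3 := sw_take _ c1.1 hi
    have c4 := val_cmp c
    rw [c1.2, c2.2] at c3
    rw [← lt_div_iff₀ (by positivity)] at b2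
    have := (c3.trans_lt b2).trans c4
    rw [lt_div_iff₀ (by positivity), add_mul, a2, pow_succ (2 : ℝ) l, ← mul_assoc ((1 / 2 : ℝ) ^ l),
      ← mul_pow] at this
    rw [a2, pow_succ] at a3
    norm_num at this
    linarith
  have key2 : ∀ p n w q n' w', Rl p n w → Rl q n' w' → p <+: q → n = n' ∧ p = q := by
    intro p n w q n' w' a b c
    have e : w.2.1 = w'.2.1 := le_antisymm (not_lt.1 (key _ _ _ _ _ _ b a (Or.inr c)))
      (not_lt.1 (key _ _ _ _ _ _ a b (Or.inl c)))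
    have a1 := a.1
    have b1 := b.1
    rw [hL] at a1 b1
    rw [e] at a1
    have := (en_get N' _ _ (le_max_left w.1 w'.1) a1).1.symm.trans
      (en_get N' _ _ (le_max_right w.1 w'.1) b1).1
    simp only [Option.some.injEq, Prod.mk.injEq] at this
    exact ⟨this.1, c.eq_of_length (by rw [a.2.1, b.2.1, this.2])⟩
  obtain ⟨M, m1, m2⟩ := mach pR fun p n n' w w' a b => (key2 _ _ _ _ _ _ a b List.prefix_rfl).1
  refine ⟨M, m1, fun p q hp hq c => ?_, fun n l hn => ?_⟩
  · obtain ⟨w, a⟩ := (m2 _ _).1 (Part.get_mem hp)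
    obtain ⟨w', b⟩ := (m2 _ _).1 (Part.get_mem hq)
    exact (key2 _ _ _ _ _ _ a b c).2
  obtain ⟨t, ht⟩ : ∃ t, (n, l) ∈ en N' (· ≠ ·) () t := by
    obtain ⟨t, ht | ⟨y, h1, h2⟩⟩ := en_all N' (· ≠ ·) () (n, l) (h3 (n, l) hn)
    exacts [⟨t, ht⟩, ⟨t, not_not.1 h2 ▸ h1⟩]
  obtain ⟨a1, a2⟩ := en_inv N' (· ≠ ·) () t
  rw [← hL] at ht a1 a2
  obtain ⟨i, hi⟩ := List.getElem?_of_mem ht
  have b1 := h (L t).toFinset fun m hm =>
    (a2 m (List.mem_toFinset.1 hm)).elim fun t ht => h2 _ _ ht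
  rw [List.sum_toFinset _ a1] at b1
  have b2 := sw_take _ hi (List.getElem?_eq_some_iff.1 hi).1
  rw [List.take_length] at b2
  have b3 : 0 ≤ sw ((L t).take i) * 2 ^ (l + 1) := mul_nonneg
    (List.sum_nonneg (by simp only [List.mem_map]; rintro _ ⟨y, -, rfl⟩; positivity)) (by positivity)
  have b4 := Nat.floor_le b3
  obtain ⟨p, c1, c2⟩ := val_surj (l + 1) (⌊sw ((L t).take i) * 2 ^ (l + 1)⌋₊ + 1) (by
    rw [← Nat.cast_lt (α := ℝ)]
    push_cast
    have := mul_le_mul_of_nonneg_right (b2.trans b1) (show (0 : ℝ) ≤ 2 ^ (l + 1) by positivity)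
    rw [add_mul, pow_succ (2 : ℝ) l, ← mul_assoc ((1 / 2 : ℝ) ^ l), ← mul_pow] at this
    rw [pow_succ] at b4 ⊢
    norm_num at this
    linarith)
  refine ⟨p, c1, (m2 _ _).2 ⟨(t, i, l), hi, c1, ?_, ?_⟩⟩ <;> rw [c1, c2] <;> push_cast
  exacts [Nat.lt_floor_add_one _, by linarith]

end Pool.Agent.H.MP_7c40ec_lc
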