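import Pool.Agent.H.MP_7c40ec_lc.Kol
import Pool.Agent.H.MP_7c40ec_lc.Game

namespace Pool.Agent.H.MP_7c40ec_lc

open Classical Finset Filter

noncomputable def cx {β : Type} (M : List Bool →. β) (x : β) : ℕ :=
  sInf {m : ℕ | ∃ q : List Bool, q.length = m ∧ x ∈ M q}

theorem cx_le {β : Type} {M : List Bool →. β} {x q} (h : x ∈ M q) : cx M x ≤ q.length :=
  Nat.sInf_le ⟨q, rfl, h⟩

theorem cx_spec {β : Type} {M : List Bool →. β} {x q} (h : x ∈ M q) :
    ∃ q, q.length = cx M x ∧ x ∈ M q :=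
  Nat.sInf_mem (s := {m : ℕ | ∃ q : List Bool, q.length = m ∧ x ∈ M q}) ⟨_, q, rfl, h⟩

def un (n : ℕ) : List Bool := (List.range n).map fun _ => true

theorem prim_un : Primrec un := Primrec.list_map Primrec.list_range (Primrec.const true).to₂

theorem un_inj : Function.Injective un := fun a b h => by simpa [un] using congrArg List.length h

theorem cx_re {M : List Bool →. List Bool} (hM : Partrec M) (h : ∀ n, ∃ q, un n ∈ M q) :
    REPred fun p : ℕ × ℕ => cx M (un p.1) ≤ p.2 := by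
  obtain ⟨N, h1, h2, h3⟩ := graph_approx hM
  have w : Primrec fun x : (ℕ × ℕ) × List Bool × ℕ => x.2.1 := Primrec.fst.comp .snd
  have := (Primrec.nat_le.comp (Primrec.list_length.comp w) (Primrec.snd.comp .fst)).and
    (h1.comp (w.pair (prim_un.comp (Primrec.fst.comp .fst))) (Primrec.snd.comp .snd))
  refine (re_ex (R := fun (p : ℕ × ℕ) (w : List Bool × ℕ) => w.1.length ≤ p.2 ∧ N (w.1, un p.1) w.2)
    (this.of_eq fun _ => Iff.rfl)).of_eq fun p => ⟨fun ⟨w, a, b⟩ => (cx_le (h2 _ _ b)).trans a,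
      fun a => ?_⟩
  obtain ⟨q, hq⟩ := h p.1
  obtain ⟨q, b, hq⟩ := cx_spec hq
  obtain ⟨t, ht⟩ := (h3 (q, un p.1) hq).exists
  exact ⟨(q, t), b ▸ a, ht⟩

theorem main (U V : List Bool →. List Bool) (hU : Partrec U)
    (oU : ∀ M : List Bool →. List Bool, Partrec M →
      ∃ c : ℕ, ∀ p z, z ∈ M p → ∃ q : List Bool, q.length ≤ p.length + c ∧ z ∈ U q)
    (hV : Partrec V) (pf : ∀ p q : List Bool, (V p).Dom → (V q).Dom → p <+: q → p = q)
    (oV : ∀ M : List Bool →. List Bool, Partrec M →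
      (∀ p q : List Bool, (M p).Dom → (M q).Dom → p <+: q → p = q) →
      ∃ c : ℕ, ∀ p z, z ∈ M p → ∃ q : List Bool, q.length ≤ p.length + c ∧ z ∈ V q)
    (Q : List Bool → ℕ → ℕ → Prop) (g : ℕ)
    (hQ1 : REPred fun p : List Bool × ℕ × ℕ => Q p.1 p.2.1 p.2.2)
    (hQ2 : ∀ x k (F : Finset ℕ), (∀ v ∈ F, Q x k v) → #F ≤ g) :
    ∃ x, ¬ Q x (cx V x) (cx U x) := by
  have k2 : ∀ R : ℕ → ℕ → Prop, REPred (fun p : ℕ × ℕ => R p.1 p.2) →
      (∀ F : Finset (ℕ × ℕ), (∀ p ∈ F, R p.1 p.2) → ∑ p ∈ F, (1 / 2 : ℝ) ^ p.2 ≤ 1) →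
      ∃ c, ∀ n l, R n l → ∃ q : List Bool, q.length ≤ l + c ∧ un n ∈ V q := by
    intro R h1 h2
    obtain ⟨M, m1, m2, m3⟩ := kc R h1 h2
    obtain ⟨c, hc⟩ := oV (fun p => (M p).map un) (m1.map (prim_un.comp .snd).to_comp.to₂) m2
    refine ⟨1 + c, fun n l h => ?_⟩
    obtain ⟨p, a, b⟩ := m3 n l h
    rw [← add_assoc, ← a]
    exact hc p _ (Part.mem_map _ b)
  have eU : ∀ n, ∃ q, un n ∈ U q := fun n => by
    obtain ⟨c, hc⟩ := oU (fun p => Part.some p) Computable.id.partrec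
    exact (hc _ _ (Part.mem_some _)).imp fun _ h => h.2
  have eV : ∀ n, ∃ q, un n ∈ V q := fun n => by
    obtain ⟨c, hc⟩ := k2 (fun m l => m = n ∧ l = 0) (ComputablePred.to_re (PrimrecPred.computablePred
      ((Primrec.eq.comp .fst (.const n)).and (Primrec.eq.comp .snd (.const 0))))) fun F hF => by
        simpa using sum_le_sum_of_subset_of_nonneg (f := fun p : ℕ × ℕ => (1 / 2 : ℝ) ^ p.2)
          (t := {(n, 0)}) (fun p hp => by simp [Prod.ext_iff, hF p hp]) fun _ _ _ => by positivity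
    exact (hc n 0 ⟨rfl, rfl⟩).imp fun _ h => h.2
  choose u u1 u2 using fun n => (eU n).elim fun _ h => cx_spec h
  choose v v1 v2 using fun n => (eV n).elim fun _ h => cx_spec h
  obtain ⟨n, hn⟩ := game (fun n => cx U (un n)) (fun n => cx V (un n)) (fun n => Q (un n)) g
    (fun m F hF => by
      rw [← card_image_of_injective F (f := u) fun a b h => un_inj (Part.mem_unique (u2 a) (h ▸ u2 b))]
      refine card_short m _ fun p hp => ?_
      obtain ⟨n, hn, rfl⟩ := mem_image.1 hp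
      exact u1 n ▸ hF n hn)
    (fun R h1 h2 => by
      obtain ⟨M, m1, m3⟩ := plain_code R h1 h2
      obtain ⟨c, hc⟩ := oU (fun p => (M p).map un) (m1.map (prim_un.comp .snd).to_comp.to₂)
      refine ⟨c, fun n l h => ?_⟩
      obtain ⟨p, rfl, b⟩ := m3 n l h
      obtain ⟨q, a, b⟩ := hc p _ (Part.mem_map _ b)
      exact (cx_le b).trans a) (cx_re hU eU)
    (fun F => by
      have := kraft (F.image v) fun p hp q hq => by
        obtain ⟨a, -, rfl⟩ := mem_image.1 hp
        obtain ⟨b, -, rfl⟩ := mem_image.1 hq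
        exact pf _ _ (v2 a).1 (v2 b).1
      rw [sum_image (g := v) fun a _ b _ h => un_inj (Part.mem_unique (v2 a) (h ▸ v2 b))] at this
      simpa only [v1] using this)
    (fun R h1 h2 => (k2 R h1 h2).imp fun c hc n l h => (hc n l h).elim fun q b => (cx_le b.2).trans b.1)
    (cx_re hV eV) ((re_comp hQ1 ((prim_un.comp .fst).pair .snd)).of_eq fun _ => Iff.rfl)
    fun n => hQ2 _
  exact ⟨_, hn⟩

theorem univ_ex (α β : Type) [Primcodable α] [Primcodable β] : ∃ W : ℕ × α →. β, Partrec W ∧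
    ∀ M : α →. β, Partrec M → ∃ e, ∀ a b, b ∈ W (e, a) ↔ b ∈ M a := by
  refine ⟨fun p => (Nat.Partrec.Code.eval (Denumerable.ofNat _ p.1) (Encodable.encode p.2)).bind
    fun n => (Encodable.decode n : Option β), ?_, fun M hM => ?_⟩
  · exact (Nat.Partrec.Code.eval_part.comp ((Computable.ofNat _).comp .fst)
      (Computable.encode.comp .snd)).bind (Computable.decode.comp .snd).ofOption.to₂
  · obtain ⟨c, hc⟩ := Nat.Partrec.Code.exists_code.mp hM
    exact ⟨Encodable.encode c, fun a b => by simp [hc]⟩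

def hd (q : List Bool) : ℕ := (q.takeWhile (!·)).length
def tl (q : List Bool) : List Bool := q.drop (hd q + 1)
def mk (e : ℕ) (p : List Bool) : List Bool := (List.range e).map (fun _ => false) ++ true :: p

theorem prim_hd : Primrec hd := Primrec.list_length.comp (Primrec.list_takeWhile Primrec.not)
theorem prim_tl : Primrec tl := Primrec.list_drop.comp (Primrec.succ.comp prim_hd) .id
theorem prim_mk : Primrec₂ mk := Primrec.list_append.comp (Primrec.list_map
  (Primrec.list_range.comp .fst) (Primrec.const false).to₂) (Primrec.list_cons.comp (.const true) .snd)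

theorem hd_mk (e p) : hd (mk e p) = e := by simp [hd, mk]
theorem tl_mk (e p) : tl (mk e p) = p := by rw [tl, hd_mk]; simp [mk, List.drop_append]
theorem len_mk (e p) : (mk e p).length = p.length + (e + 1) := by simp [mk]; omega

theorem pf_ex : ∃ V : List Bool →. List Bool, Partrec V ∧
    (∀ p q : List Bool, (V p).Dom → (V q).Dom → p <+: q → p = q) ∧
    ∀ M : List Bool →. List Bool, Partrec M →
      (∀ p q : List Bool, (M p).Dom → (M q).Dom → p <+: q → p = q) →
      ∃ c : ℕ, ∀ p z, z ∈ M p → ∃ q : List Bool, q.length ≤ p.length + c ∧ z ∈ V q := by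
  obtain ⟨W, w1, w2⟩ := univ_ex (List Bool) (List Bool)
  obtain ⟨N, h1, h2, h3⟩ := graph_approx w1
  let N' : ℕ × List Bool × List Bool → ℕ → Prop := fun p t => N ((p.1, p.2.1), p.2.2) t
  have h4 : PrimrecRel N' := h1.comp (((Primrec.fst.comp .fst).pair (Primrec.fst.comp
    (Primrec.snd.comp .fst))).pair (Primrec.snd.comp (Primrec.snd.comp .fst))) .snd
  let r : List Bool × List Bool → List Bool × List Bool → Prop := fun y z =>
    ¬ y.1 <+: z.1 ∧ ¬ z.1 <+: y.1
  have pp : PrimrecRel fun a b : List Bool => a <+: b :=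
    (Primrec.eq.comp .fst (Primrec.list_take.comp (Primrec.list_length.comp .fst) .snd)).of_eq
      fun _ => List.prefix_iff_eq_take.symm
  have hr : PrimrecRel r := (pp.comp (Primrec.fst.comp .fst) (Primrec.fst.comp .snd)).not.and
    (pp.comp (Primrec.fst.comp .snd) (Primrec.fst.comp .fst)).not
  have key : ∀ e t t' y z, y ∈ en N' r e t → z ∈ en N' r e t' → y.1 <+: z.1 → y = z := by
    intro e t t' y z a b c
    by_contra hne
    have : Std.Symm r := ⟨fun _ _ h => h.symm⟩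
    exact ((en_inv N' r e (max t t')).1.forall ((en_mono N' r e (le_max_left _ _)).subset a)
      ((en_mono N' r e (le_max_right _ _)).subset b) hne).1 c
  have q1 : Primrec fun x : List Bool × List Bool × ℕ => hd x.1 := prim_hd.comp .fst
  have q2 : Primrec fun x : List Bool × List Bool × ℕ => tl x.1 := prim_tl.comp .fst
  have q3 := (Primrec.eq.comp .fst (prim_mk.comp q1 q2)).and
    ((PrimrecRel.exists_mem_list Primrec.eq).comp ((prim_en N' r h4 hr).comp q1
      (Primrec.snd.comp .snd)) (q2.pair (Primrec.fst.comp .snd)))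
  obtain ⟨V, v1, v2⟩ := mach (R := fun q x t => q = mk (hd q) (tl q) ∧ (tl q, x) ∈ en N' r (hd q) t)
    (q3.of_eq fun _ => by simp)
    fun q x x' t t' a b => congrArg Prod.snd (key _ _ _ _ _ a.2 b.2 List.prefix_rfl)
  refine ⟨V, v1, fun p q hp hq c => ?_, fun M m1 m2 => ?_⟩
  · obtain ⟨t, a1, a2⟩ := (v2 _ _).1 (Part.get_mem hp)
    obtain ⟨t', b1, b2⟩ := (v2 _ _).1 (Part.get_mem hq)
    obtain ⟨s, hs⟩ := c
    have e : q = mk (hd p) (tl p ++ s) := by rw [← hs, a1, hd_mk, tl_mk]; simp [mk]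
    have e1 : hd q = hd p := by rw [e, hd_mk]
    have e2 : tl q = tl p ++ s := by rw [e, tl_mk]
    rw [e1] at b1 b2
    have := congrArg Prod.fst (key _ _ _ _ _ a2 b2 ⟨s, e2.symm⟩)
    rw [a1, b1]
    exact congrArg _ this
  · obtain ⟨e, he⟩ := w2 M m1
    refine ⟨e + 1, fun p z hz => ⟨mk e p, (len_mk e p).le, (v2 _ _).2 ?_⟩⟩
    simp only [hd_mk, tl_mk, true_and]
    obtain ⟨t, ht | ⟨y, a1, a2⟩⟩ := en_all N' r e (p, z) (h3 ((e, p), z) ((he _ _).2 hz))
    · exact ⟨t, ht⟩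
    · obtain ⟨t', ht'⟩ := (en_inv N' r e t).2 y a1
      have a3 := (he _ _).1 (h2 _ _ ht')
      obtain rfl : y.1 = p := by
        rcases not_and_or.1 a2 with c | c
        exacts [m2 _ _ a3.1 hz.1 (not_not.1 c), (m2 _ _ hz.1 a3.1 (not_not.1 c)).symm]
      exact ⟨t, Part.mem_unique a3 hz ▸ a1⟩

end Pool.Agent.H.MP_7c40ec_lc
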