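import Mathlib

namespace Pool.Agent.H.MP_7c40ec_lc

open Classical

section
variable (O J Gs : ℕ × ℕ × ℕ → ℕ → Prop) (G : ℕ)

noncomputable def nx (t : ℕ) (s : ℕ × ℕ × ℕ) : ℕ × ℕ × ℕ :=
  if O s t then (s.1 + 1, 0, G) else if J s t then (s.1, s.2.1 + 1, G)
  else if Gs s t then (s.1, s.2.1, s.2.2 - 1) else s

noncomputable def st (t : ℕ) : ℕ × ℕ × ℕ := Nat.rec (0, 0, G) (nx O J Gs G) t

theorem st_succ (t : ℕ) : st O J Gs G (t + 1) = nx O J Gs G t (st O J Gs G t) := rfl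

def Le (s s' : ℕ × ℕ × ℕ) : Prop :=
  s.1 < s'.1 ∨ s.1 = s'.1 ∧ (s.2.1 < s'.2.1 ∨ s.2.1 = s'.2.1 ∧ s'.2.2 ≤ s.2.2)

theorem st_mono {t t' : ℕ} (h : t ≤ t') : Le (st O J Gs G t) (st O J Gs G t') := by
  induction h with
  | refl => simp [Le]
  | step _ ih =>
    rw [st_succ, nx]
    unfold Le at *
    split_ifs <;> (try dsimp only) <;> omega

theorem st_inv (t : ℕ) : (st O J Gs G t).2.2 ≤ G ∧ ∀ k, (st O J Gs G t).2.2 < k → k ≤ G →
    ∃ t', Gs ((st O J Gs G t).1, (st O J Gs G t).2.1, k) t' := by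
  induction t with
  | zero => exact ⟨le_rfl, fun k h1 h2 => absurd h2 (not_le.2 h1)⟩
  | succ t ih =>
    rw [st_succ, nx]
    split_ifs with c1 c2 c3
    · exact ⟨le_rfl, fun k h1 h2 => absurd h2 (not_le.2 h1)⟩
    · exact ⟨le_rfl, fun k h1 h2 => absurd h2 (not_le.2 h1)⟩
    · refine ⟨(Nat.sub_le _ _).trans ih.1, fun k h1 h2 => ?_⟩
      by_cases e : k = (st O J Gs G t).2.2
      · exact ⟨t, by rw [e]; exact c3⟩
      · exact ih.2 k (by dsimp only at h1; omega) h2
    · exact ih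

theorem st_A (t j : ℕ) (h : j < (st O J Gs G t).2.1) : ∃ k t', k ≤ G ∧
    J ((st O J Gs G t).1, j, k) t' ∧ ∀ t'', (st O J Gs G t'').1 = (st O J Gs G t).1 →
      (st O J Gs G t'').2.1 = j → k ≤ (st O J Gs G t'').2.2 := by
  induction t with
  | zero => exact absurd h (Nat.not_lt_zero _)
  | succ t ih =>
    have e := st_succ O J Gs G t
    rw [nx] at e
    split_ifs at e with c1 c2 c3 <;> rw [e] at h ⊢
    · exact absurd h (Nat.not_lt_zero _)
    · by_cases e2 : j = (st O J Gs G t).2.1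
      · refine ⟨_, t, (st_inv O J Gs G t).1, by rw [e2]; exact c2, fun t'' h1 h2 => ?_⟩
        rcases le_or_gt t'' t with c | c
        · have := st_mono O J Gs G c
          unfold Le at this
          dsimp only at h1
          omega
        · have := st_mono O J Gs G (Nat.succ_le_of_lt c)
          rw [e] at this
          unfold Le at this
          dsimp only at h1 this
          omega
      · exact ih (by dsimp only at h; omega)
    · exact ih h
    · exact ih h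

theorem st_B (t r : ℕ) (h : r < (st O J Gs G t).1) : ∃ t', (st O J Gs G t').1 = r ∧
    O (st O J Gs G t') t' ∧ ∀ t'', (st O J Gs G t'').1 = r →
      (st O J Gs G t'').2.1 ≤ (st O J Gs G t').2.1 := by
  induction t with
  | zero => exact absurd h (Nat.not_lt_zero _)
  | succ t ih =>
    have e := st_succ O J Gs G t
    rw [nx] at e
    split_ifs at e with c1 c2 c3 <;> rw [e] at h
    · by_cases e2 : r = (st O J Gs G t).1
      · refine ⟨t, e2.symm, c1, fun t'' h1 => ?_⟩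
        rcases le_or_gt t'' t with c | c
        · have := st_mono O J Gs G c
          unfold Le at this
          omega
        · have := st_mono O J Gs G (Nat.succ_le_of_lt c)
          rw [e] at this
          unfold Le at this
          dsimp only at this
          omega
      · exact ih (by dsimp only at h; omega)
    · exact ih h
    · exact ih h
    · exact ih h

theorem st_final (N : ℕ) (h : ∀ t, (st O J Gs G t).1 ≤ N ∧ (st O J Gs G t).2.1 ≤ N) :
    ∃ T, ∀ t ≥ T, ¬ O (st O J Gs G T) t ∧ ¬ J (st O J Gs G T) t ∧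
      (Gs (st O J Gs G T) t → (st O J Gs G T).2.2 = 0) := by
  obtain ⟨t1, h1⟩ : ∃ t1, ∀ t, (st O J Gs G t).1 ≤ (st O J Gs G t1).1 := by
    obtain ⟨t1, e⟩ := Nat.sSup_mem (Set.range_nonempty fun t => (st O J Gs G t).1)
      ⟨N, by rintro _ ⟨t, rfl⟩; exact (h t).1⟩
    exact ⟨t1, fun t => le_of_le_of_eq (le_csSup ⟨N, by rintro _ ⟨t, rfl⟩; exact (h t).1⟩ (Set.mem_range_self t))
      e.symm⟩
  obtain ⟨t2, h2⟩ : ∃ t2, ∀ t, (st O J Gs G (t1 + t)).2.1 ≤ (st O J Gs G (t1 + t2)).2.1 := by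
    obtain ⟨t2, e⟩ := Nat.sSup_mem (Set.range_nonempty fun t => (st O J Gs G (t1 + t)).2.1)
      ⟨N, by rintro _ ⟨t, rfl⟩; exact (h _).2⟩
    exact ⟨t2, fun t => le_of_le_of_eq (le_csSup ⟨N, by rintro _ ⟨t, rfl⟩; exact (h _).2⟩ (Set.mem_range_self t))
      e.symm⟩
  obtain ⟨t3, h3⟩ : ∃ t3, ∀ t, (st O J Gs G (t1 + t2 + t3)).2.2 ≤ (st O J Gs G (t1 + t2 + t)).2.2 := by
    obtain ⟨t3, e⟩ := Nat.sInf_mem (Set.range_nonempty fun t => (st O J Gs G (t1 + t2 + t)).2.2)
    exact ⟨t3, fun t => e.le.trans (Nat.sInf_le ⟨t, rfl⟩)⟩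
  have key : ∀ t, st O J Gs G (t1 + t2 + t3 + t) = st O J Gs G (t1 + t2 + t3) := fun t => by
    have a1 := st_mono O J Gs G (Nat.le_add_right (t1 + t2 + t3) t)
    have a2 := st_mono O J Gs G (Nat.le_add_right (t1 + t2) t3)
    have a3 := st_mono O J Gs G (Nat.le_add_right t1 t2)
    have a4 := h1 (t1 + t2 + t3 + t)
    have a5 := h2 (t2 + t3 + t)
    have a6 := h3 (t3 + t)
    simp only [← add_assoc] at a5 a6
    unfold Le at *
    refine Prod.ext ?_ (Prod.ext ?_ ?_) <;> omega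
  refine ⟨t1 + t2 + t3, fun t ht => ?_⟩
  obtain ⟨t, rfl⟩ := Nat.exists_eq_add_of_le ht
  have e := key (t + 1)
  rw [← add_assoc, st_succ, key, nx] at e
  split_ifs at e with c1 c2 c3 <;> simp only [Prod.ext_iff] at e
  · omega
  · omega
  · exact ⟨c1, c2, fun _ => by omega⟩
  · exact ⟨c1, c2, fun c => absurd c c3⟩

end

theorem prim_st {O J Gs : ℕ → ℕ × ℕ × ℕ → ℕ → Prop} {G : ℕ → ℕ}
    (hO : PrimrecPred fun p : ℕ × ℕ × ℕ × ℕ × ℕ => O p.1 p.2.2 p.2.1)
    (hJ : PrimrecPred fun p : ℕ × ℕ × ℕ × ℕ × ℕ => J p.1 p.2.2 p.2.1)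
    (hG : PrimrecPred fun p : ℕ × ℕ × ℕ × ℕ × ℕ => Gs p.1 p.2.2 p.2.1) (hg : Primrec G) :
    Primrec₂ fun c t => st (O c) (J c) (Gs c) (G c) t := by
  have s1 : Primrec fun p : ℕ × ℕ × ℕ × ℕ × ℕ => p.2.2.1 :=
    Primrec.fst.comp (Primrec.snd.comp Primrec.snd)
  have s0 : Primrec fun p : ℕ × ℕ × ℕ × ℕ × ℕ => p.2.2.2 :=
    Primrec.snd.comp (Primrec.snd.comp Primrec.snd)
  have g := hg.comp (Primrec.fst (α := ℕ) (β := ℕ × ℕ × ℕ × ℕ))
  have h : Primrec₂ fun (c : ℕ) (p : ℕ × ℕ × ℕ × ℕ) => nx (O c) (J c) (Gs c) (G c) p.1 p.2 :=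
    (Primrec.ite hO ((Primrec.succ.comp s1).pair ((Primrec.const 0).pair g)) (Primrec.ite hJ
      (s1.pair ((Primrec.succ.comp (Primrec.fst.comp s0)).pair g)) (Primrec.ite hG
        (s1.pair ((Primrec.fst.comp s0).pair (Primrec.nat_sub.comp (Primrec.snd.comp s0)
          (Primrec.const 1)))) (Primrec.snd.comp Primrec.snd)))).of_eq fun _ => rfl
  exact Primrec.nat_rec ((Primrec.const 0).pair ((Primrec.const 0).pair hg)) h

theorem re_approx {α : Type} [Primcodable α] {p : α → Prop} (h : REPred p) :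
    ∃ NN : α → ℕ → Prop, PrimrecRel NN ∧ (∀ a t, NN a t → p a) ∧
      ∀ a, p a → ∀ᶠ t in Filter.atTop, NN a t := by
  obtain ⟨c, hc⟩ := Nat.Partrec.Code.exists_code.mp h
  have key : ∀ a, p a ↔ ∃ x, x ∈ c.eval (Encodable.encode a) := by
    intro a
    rw [hc]
    simp [Part.mem_assert_iff]
  refine ⟨fun a t => (Nat.Partrec.Code.evaln t c (Encodable.encode a)).isSome = true, ?_, ?_, ?_⟩
  · exact Primrec.eq.comp (Primrec.option_isSome.comp (Nat.Partrec.Code.primrec_evaln.comp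
      (Primrec.pair (Primrec.pair Primrec.snd (Primrec.const c))
        (Primrec.encode.comp Primrec.fst)))) (Primrec.const true)
  · intro a t ht
    obtain ⟨x, hx⟩ := Option.isSome_iff_exists.mp ht
    exact (key a).mpr ⟨x, Nat.Partrec.Code.evaln_sound hx⟩
  · intro a ha
    obtain ⟨x, hx⟩ := (key a).mp ha
    obtain ⟨k, hk⟩ := Nat.Partrec.Code.evaln_complete.mp hx
    filter_upwards [Filter.eventually_ge_atTop k] with t ht
    exact Option.isSome_iff_exists.mpr ⟨x, Nat.Partrec.Code.evaln_mono ht hk⟩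

/-- a partial computable selector for a projection of a primitive recursive relation -/
theorem selector {α β γ : Type} [Primcodable α] [Primcodable β] [Primcodable γ]
    {R : α → β → γ → Prop} (h : PrimrecPred fun p : α × β × γ => R p.1 p.2.1 p.2.2) :
    ∃ M : α →. β, Partrec M ∧ (∀ a, ∀ b ∈ M a, ∃ w, R a b w) ∧ ∀ a b w, R a b w → (M a).Dom := by
  let g : α → ℕ → Option β := fun a k => (Encodable.decode (α := β × γ) k).bind
    fun z => if R a z.1 z.2 then some z.1 else none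
  have hg : Primrec₂ g := by
    refine Primrec.option_bind (Primrec.decode.comp Primrec.snd) ?_
    have e : Primrec fun x : (α × ℕ) × β × γ => (x.1.1, x.2) :=
      Primrec.pair (Primrec.fst.comp Primrec.fst) Primrec.snd
    exact Primrec.ite (h.comp e) (Primrec.option_some.comp (Primrec.fst.comp Primrec.snd))
      (Primrec.const none)
  refine ⟨fun a => Nat.rfindOpt (g a), Partrec.rfindOpt hg.to_comp, fun a b hb => ?_,
    fun a b w hw => Nat.rfindOpt_dom.mpr ⟨Encodable.encode (b, w), b, by simp [g, hw]⟩⟩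
  obtain ⟨k, hk⟩ := Nat.rfindOpt_spec hb
  simp only [g, Option.mem_def, Option.bind_eq_some_iff] at hk
  obtain ⟨z', _, hz'⟩ := hk
  split_ifs at hz' with hh
  exact ⟨z'.2, Option.some.inj hz' ▸ hh⟩

theorem mach {α β γ : Type} [Primcodable α] [Primcodable β] [Primcodable γ]
    {R : α → β → γ → Prop} (h : PrimrecPred fun p : α × β × γ => R p.1 p.2.1 p.2.2)
    (hu : ∀ a b b' w w', R a b w → R a b' w' → b = b') :
    ∃ M : α →. β, Partrec M ∧ ∀ a b, b ∈ M a ↔ ∃ w, R a b w := by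
  obtain ⟨M, h1, h2, h3⟩ := selector h
  refine ⟨M, h1, fun a b => ⟨h2 a b, fun ⟨w, hw⟩ => ?_⟩⟩
  obtain ⟨w', hw'⟩ := h2 a _ (Part.get_mem (h3 a b w hw))
  exact hu a _ _ _ _ hw' hw ▸ Part.get_mem _

theorem re_ex {α γ : Type} [Primcodable α] [Primcodable γ] {R : α → γ → Prop}
    (h : PrimrecPred fun p : α × γ => R p.1 p.2) : REPred fun a => ∃ w, R a w := by
  obtain ⟨M, h1, h2, h3⟩ := selector (β := Unit) (R := fun a _ w => R a w)
    (h.comp (Primrec.fst.pair (Primrec.snd.comp Primrec.snd)))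
  exact h1.dom_re.of_eq fun a => ⟨fun d => h2 a _ (Part.get_mem d), fun ⟨w, hw⟩ => h3 a () w hw⟩

theorem graph_approx {α β : Type} [Primcodable α] [Primcodable β] {M : α →. β} (h : Partrec M) :
    ∃ NN : α × β → ℕ → Prop, PrimrecRel NN ∧ (∀ a t, NN a t → a.2 ∈ M a.1) ∧
      ∀ a, a.2 ∈ M a.1 → ∀ᶠ t in Filter.atTop, NN a t := by
  obtain ⟨c, hc⟩ := Nat.Partrec.Code.exists_code.mp h
  have key : ∀ a b, b ∈ M a ↔ Encodable.encode b ∈ c.eval (Encodable.encode a) := by
    intro a b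
    rw [hc]
    simp
  refine ⟨fun a t => Nat.Partrec.Code.evaln t c (Encodable.encode a.1) =
    some (Encodable.encode a.2), ?_, ?_, ?_⟩
  · exact Primrec.eq.comp (Nat.Partrec.Code.primrec_evaln.comp
      (Primrec.pair (Primrec.pair Primrec.snd (Primrec.const c))
        (Primrec.encode.comp (Primrec.fst.comp Primrec.fst))))
      (Primrec.option_some.comp (Primrec.encode.comp (Primrec.snd.comp Primrec.fst)))
  · exact fun a t ht => (key _ _).2 (Nat.Partrec.Code.evaln_sound ht)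
  · intro a ha
    obtain ⟨k, hk⟩ := Nat.Partrec.Code.evaln_complete.mp ((key _ _).1 ha)
    filter_upwards [Filter.eventually_ge_atTop k] with t ht
    exact Nat.Partrec.Code.evaln_mono ht hk

end Pool.Agent.H.MP_7c40ec_lc
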